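import Pool.Agent.X308.T.Main
import Mathlib.Data.Nat.Factorial.Basic

/-!
# Vanishing above a slope is equivalent to bounds in one degree
-/

set_option autoImplicit false

namespace Pool.Agent.X308.T

open Filter Topology ENNReal

namespace ProductClass

variable {C : Type*} (L : ProductClass C)

/-- The numbers `b M i` vanish for `i > α * dim M`. -/
def VanishingAbove (α : ℝ) : Prop :=
  ∀ (M : C) (i : ℕ), 0 < L.dim M → α * L.dim M < i → L.b M i = 0

/-- For some pairs `(j t, d t)` of a degree above the middle and a dimension, with `d t → ∞` and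
`j t / d t → α`, there is a bound `b (j t) ≤ B ^ d * exp (f (c N))` for all `N` of dimension
`d = d t`, with a subadditive complexity `c` and a sublinear function `f`. -/
def BoundAlong (α : ℝ) : Prop :=
  ∃ c : C → ℝ, L.Subadditive c ∧ ∃ (B : ℝ) (f : ℝ → ℝ), Sublinear f ∧ ∃ j d : ℕ → ℕ,
    (∀ t, d t < 2 * j t) ∧ Tendsto d atTop atTop ∧
      Tendsto (fun t => (j t : ℝ) / d t) atTop (𝓝 α) ∧ ∀ t, L.BoundAt c B f (j t) (d t)

/-- The same, where every positive integer divides infinitely many of the numbers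
`2 * j t - d t`. -/
def BoundAlongDivisible (α : ℝ) : Prop :=
  ∃ c : C → ℝ, L.Subadditive c ∧ ∃ (B : ℝ) (f : ℝ → ℝ), Sublinear f ∧ ∃ j d : ℕ → ℕ,
    (∀ t, d t < 2 * j t) ∧ Tendsto d atTop atTop ∧
      Tendsto (fun t => (j t : ℝ) / d t) atTop (𝓝 α) ∧
      (∀ e : ℕ, 0 < e → ∃ᶠ t in atTop, e ∣ 2 * j t - d t) ∧
        ∀ t, L.BoundAt c B f (j t) (d t)

lemma sublinear_zero : Sublinear fun _ => 0 := ⟨monotone_const, by simp⟩

/-- The converse, with degrees divisible by factorials. -/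
theorem boundAlongDivisible_of_vanishing {α : ℝ} (hα : 1 / 2 ≤ α) (h : L.VanishingAbove α) :
    L.BoundAlongDivisible α := by
  have hα0 : 0 ≤ α := by linarith
  refine ⟨fun _ => 0, fun _ _ => by simp, 1, fun _ => 0, sublinear_zero,
    fun t => t.factorial * (⌊α * (t + 1)⌋₊ + 1), fun t => t.factorial * (t + 1), ?_, ?_, ?_, ?_, ?_⟩
  · intro t
    have h1 : α * ((t : ℝ) + 1) < ⌊α * (t + 1)⌋₊ + 1 := Nat.lt_floor_add_one _
    have h2 : t + 1 < 2 * (⌊α * (t + 1)⌋₊ + 1) := by
      have h3 : ((t + 1 : ℕ) : ℝ) < ((2 * (⌊α * (t + 1)⌋₊ + 1) : ℕ) : ℝ) := by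
        push_cast
        nlinarith
      exact_mod_cast h3
    have h3 := Nat.factorial_pos t
    calc t.factorial * (t + 1) < t.factorial * (2 * (⌊α * (t + 1)⌋₊ + 1)) :=
          Nat.mul_lt_mul_of_pos_left h2 h3
      _ = _ := by ring
  · refine tendsto_atTop_mono (fun t => ?_) tendsto_id
    have h3 := Nat.factorial_pos t
    calc t ≤ 1 * (t + 1) := by omega
      _ ≤ _ := Nat.mul_le_mul_right _ h3
  · have h1 : ∀ t : ℕ, ((t.factorial * (⌊α * (t + 1)⌋₊ + 1) : ℕ) : ℝ) /
        ((t.factorial * (t + 1) : ℕ) : ℝ) = (⌊α * (t + 1)⌋₊ + 1 : ℝ) / (t + 1) := by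
      intro t
      have h3 : (t.factorial : ℝ) ≠ 0 := by exact_mod_cast (Nat.factorial_pos t).ne'
      push_cast
      rw [mul_div_mul_left _ _ h3]
    simp only [h1]
    have h2 : Tendsto (fun t : ℕ => α + 1 / ((t : ℝ) + 1)) atTop (𝓝 α) := by
      simpa using tendsto_const_nhds (x := α) |>.add tendsto_one_div_add_atTop_nhds_zero_nat
    refine tendsto_of_tendsto_of_tendsto_of_le_of_le tendsto_const_nhds h2 ?_ ?_
    · intro t
      have h3 : (0 : ℝ) < (t : ℝ) + 1 := by positivity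
      change α ≤ (⌊α * (t + 1)⌋₊ + 1 : ℝ) / (t + 1)
      rw [le_div_iff₀ h3]
      exact (Nat.lt_floor_add_one _).le
    · intro t
      have h3 : (0 : ℝ) < (t : ℝ) + 1 := by positivity
      change (⌊α * (t + 1)⌋₊ + 1 : ℝ) / (t + 1) ≤ α + 1 / ((t : ℝ) + 1)
      rw [div_le_iff₀ h3, add_mul, one_div_mul_cancel h3.ne']
      have h4 := Nat.floor_le (mul_nonneg hα0 h3.le)
      linarith
  · intro e he
    refine ((eventually_ge_atTop e).mono fun t ht => ?_).frequently
    have h1 : e ∣ t.factorial := Nat.dvd_factorial he ht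
    exact Nat.dvd_sub ((h1.mul_right _).mul_left 2) (h1.mul_right _)
  · intro t N hN
    have h3 := Nat.factorial_pos t
    have hN0 : 0 < L.dim N := by rw [hN]; positivity
    rw [h N _ hN0 ?_]
    · exact zero_le
    · rw [hN]
      push_cast
      have h4 : α * ((t : ℝ) + 1) < ⌊α * (t + 1)⌋₊ + 1 := Nat.lt_floor_add_one _
      have h5 : (0 : ℝ) < t.factorial := by exact_mod_cast h3
      nlinarith

/-- With an object of dimension one and `b 0 ≥ 1`. -/
theorem iff_of_interval (hE : ∃ E, L.dim E = 1 ∧ 1 ≤ L.b E 0) {α : ℝ} (hα : 1 / 2 ≤ α) :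
    L.VanishingAbove α ↔ L.BoundAlong α := by
  constructor
  · intro h
    obtain ⟨c, h1, B, f, h2, j, d, h3, h4, h5, -, h6⟩ := L.boundAlongDivisible_of_vanishing hα h
    exact ⟨c, h1, B, f, h2, j, d, h3, h4, h5, h6⟩
  · rintro ⟨c, h1, B, f, h2, j, d, h3, h4, h5, h6⟩ M i h0 hi
    refine L.vanishing h1 h2 h3 h4 h5 (Or.inl hE) h6 M i h0 ?_ hi
    have h7 : (0 : ℝ) ≤ L.dim M := Nat.cast_nonneg _
    have h8 : (L.dim M : ℝ) < ((2 * i : ℕ) : ℝ) := by
      push_cast
      nlinarith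
    exact_mod_cast h8

/-- Without such an object. -/
theorem iff_divisible {α : ℝ} (hα : 1 / 2 ≤ α) :
    L.VanishingAbove α ↔ L.BoundAlongDivisible α := by
  refine ⟨L.boundAlongDivisible_of_vanishing hα, ?_⟩
  rintro ⟨c, h1, B, f, h2, j, d, h3, h4, h5, h5', h6⟩ M i h0 hi
  refine L.vanishing h1 h2 h3 h4 h5 (Or.inr h5') h6 M i h0 ?_ hi
  have h7 : (0 : ℝ) ≤ L.dim M := Nat.cast_nonneg _
  have h8 : (L.dim M : ℝ) < ((2 * i : ℕ) : ℝ) := by
    push_cast
    nlinarith
  exact_mod_cast h8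

/-- Poincaré duality. -/
def Duality : Prop :=
  (∀ M i, i ≤ L.dim M → L.b M i = L.b M (L.dim M - i)) ∧ ∀ M i, L.dim M < i → L.b M i = 0

/-- The numbers vanish outside the middle degree. -/
def Singer : Prop := ∀ M i, 0 < L.dim M → 2 * i ≠ L.dim M → L.b M i = 0

theorem singer_iff (hD : L.Duality) : L.Singer ↔ L.BoundAlongDivisible (1 / 2) := by
  rw [← L.iff_divisible le_rfl]
  constructor
  · intro h M i h0 hi
    refine h M i h0 fun h1 => ?_
    rw [← h1] at hi
    push_cast at hi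
    linarith
  · intro h M i h0 hi
    rcases lt_or_gt_of_ne hi with h1 | h1
    · rw [hD.1 M i (by omega)]
      refine h M _ h0 ?_
      rw [Nat.cast_sub (by omega)]
      have h2 : ((2 * i : ℕ) : ℝ) < L.dim M := by exact_mod_cast h1
      push_cast at h2
      linarith
    · refine h M i h0 ?_
      have h2 : (L.dim M : ℝ) < ((2 * i : ℕ) : ℝ) := by exact_mod_cast h1
      push_cast at h2
      linarith

end ProductClass

end Pool.Agent.X308.T
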