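import Pool.Agent.X308.T.Num
import Mathlib.Data.ENNReal.Real
import Mathlib.Analysis.SpecialFunctions.Pow.Asymptotics

/-!
# `L²`-Betti numbers and products: one degree above the middle suffices
-/

set_option autoImplicit false

namespace Pool.Agent.X308.T

open Filter Topology ENNReal

/-- A class `C` of manifolds or groups with a dimension, products and numbers `b M i` (the
`L²`-Betti numbers) which satisfy the Künneth inequality; the class contains the closed hyperbolic
surfaces. -/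
structure ProductClass (C : Type*) where
  /-- the dimension -/
  dim : C → ℕ
  /-- the product -/
  prod : C → C → C
  /-- the `L²`-Betti number of degree `i` -/
  b : C → ℕ → ℝ≥0∞
  dim_prod : ∀ M N, dim (prod M N) = dim M + dim N
  kunneth : ∀ M N i j, b M i * b N j ≤ b (prod M N) (i + j)
  surfaces : ∀ s : ℕ, ∃ F, dim F = 2 ∧ (s : ℝ≥0∞) ≤ b F 1

namespace ProductClass

variable {C : Type*} (L : ProductClass C)

/-- A complexity which is subadditive under products. -/
def Subadditive (c : C → ℝ) : Prop := ∀ M N, c (L.prod M N) ≤ c M + c N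

/-- There is an object of dimension `n` with `b i ≥ β` and complexity at most `γ`. -/
def Reach (c : C → ℝ) (i n : ℕ) (β γ : ℝ) : Prop :=
  ∃ M, L.dim M = n ∧ ENNReal.ofReal β ≤ L.b M i ∧ c M ≤ γ

lemma Reach.mul {L : ProductClass C} {c : C → ℝ} (hc : L.Subadditive c) {i n i' n' : ℕ}
    {β γ β' γ' : ℝ} (hβ : 0 ≤ β) (h : L.Reach c i n β γ) (h' : L.Reach c i' n' β' γ') :
    L.Reach c (i + i') (n + n') (β * β') (γ + γ') := by
  obtain ⟨M, h1, h2, h3⟩ := h
  obtain ⟨M', h1', h2', h3'⟩ := h'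
  refine ⟨L.prod M M', by rw [L.dim_prod, h1, h1'], ?_, (hc M M').trans (add_le_add h3 h3')⟩
  rw [ENNReal.ofReal_mul hβ]
  exact (mul_le_mul' h2 h2').trans (L.kunneth _ _ _ _)

lemma Reach.pow {L : ProductClass C} {c : C → ℝ} (hc : L.Subadditive c) {i n : ℕ}
    {β γ : ℝ} (hβ : 0 ≤ β) (h : L.Reach c i n β γ) {k : ℕ} (hk : 0 < k) :
    L.Reach c (k * i) (k * n) (β ^ k) (k * γ) := by
  induction k, hk using Nat.le_induction with
  | base => simpa using h
  | succ k hk ih =>
    have := Reach.mul hc (pow_nonneg hβ k) ih h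
    rw [pow_succ]
    convert this using 1
    · ring
    · ring
    · push_cast; ring

/-- The bound in one degree and dimension. -/
def BoundAt (c : C → ℝ) (B : ℝ) (f : ℝ → ℝ) (j d : ℕ) : Prop :=
  ∀ N, L.dim N = d → L.b N j ≤ ENNReal.ofReal (B ^ d * Real.exp (f (c N)))

/-- The main theorem: the bound in one degree in a sequence of dimensions gives vanishing. -/
theorem vanishing {c : C → ℝ} (hc : L.Subadditive c) {B : ℝ} {f : ℝ → ℝ} (hf : Sublinear f)
    {j d : ℕ → ℕ} (hx : ∀ t, d t < 2 * j t) (hd : Tendsto d atTop atTop) {α : ℝ}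
    (hlim : Tendsto (fun t => (j t : ℝ) / d t) atTop (𝓝 α))
    (hstep : (∃ E, L.dim E = 1 ∧ 1 ≤ L.b E 0) ∨
      ∀ e : ℕ, 0 < e → ∃ᶠ t in atTop, e ∣ 2 * j t - d t)
    (hbound : ∀ t, L.BoundAt c B f (j t) (d t)) (M : C) (i : ℕ) (h0 : 0 < L.dim M)
    (hmid : L.dim M < 2 * i) (hα : α * L.dim M < i) : L.b M i = 0 := by
  by_contra hne
  set n := L.dim M with hn
  set e : ℕ := 2 * i - n with he
  have he0 : 0 < e := by omega
  obtain ⟨δ, hδ, hexp⟩ := exists_exponents hmid hα hx hd hlim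
  -- the real numbers
  obtain ⟨β, hβ, hβ1, hβM⟩ : ∃ β : ℝ, 0 < β ∧ β ≤ 1 ∧ ENNReal.ofReal β ≤ L.b M i := by
    by_cases h1 : (1 : ℝ≥0∞) ≤ L.b M i
    · exact ⟨1, one_pos, le_rfl, by rw [ENNReal.ofReal_one]; exact h1⟩
    · have hlt : L.b M i < 1 := not_le.1 h1
      have htop : L.b M i ≠ ∞ := (hlt.trans one_lt_top).ne
      refine ⟨(L.b M i).toReal, ENNReal.toReal_pos hne htop, ?_, ?_⟩
      · exact (ENNReal.toReal_lt_of_lt_ofReal (by rwa [ENNReal.ofReal_one])).le
      · rw [ENNReal.ofReal_toReal htop]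
  set B' : ℝ := max |B| 1 with hB'
  have hB1 : 1 ≤ B' := le_max_right _ _
  -- the surface
  obtain ⟨s, hs1, hs⟩ : ∃ s : ℕ, 1 ≤ s ∧ B' * Real.exp 1 / β < (s : ℝ) ^ δ := by
    have h1 : Tendsto (fun s : ℕ => (s : ℝ) ^ δ) atTop atTop :=
      (tendsto_rpow_atTop hδ).comp tendsto_natCast_atTop_atTop
    obtain ⟨s, h2, h3⟩ := ((h1.eventually_gt_atTop _).and (eventually_ge_atTop 1)).exists
    exact ⟨s, h3, h2⟩
  have hs1R : (1 : ℝ) ≤ s := by exact_mod_cast hs1
  obtain ⟨F, hF, hFs⟩ := L.surfaces s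
  have rF : L.Reach c 1 2 s (c F) := ⟨F, hF, by rwa [ENNReal.ofReal_natCast], le_rfl⟩
  have rM : L.Reach c i n β (c M) := ⟨M, rfl, hβM, le_rfl⟩
  -- the general inequality
  have key : ∀ C₀ : ℝ, 0 < C₀ → ∀ᶠ t in atTop, ∀ k a : ℕ, 0 < k → k * e = 2 * j t - d t + a →
      a < e → ∃ c₀ : ℕ, 0 < c₀ ∧ j t = k * i + c₀ ∧ d t = k * n + 2 * c₀ + a ∧
        ∀ γ : ℝ, γ ≤ C₀ * d t → ¬ L.Reach c (j t) (d t) (β ^ k * (s : ℝ) ^ c₀) γ := by
    intro C₀ hC₀
    filter_upwards [hexp, hf.eventually_le hC₀ hd] with t ht hft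
    intro k a hk0 hka ha
    obtain ⟨hdt, h1⟩ := ht
    obtain ⟨c₀, h2, h3, h4⟩ := h1 k (by rw [← he, hka]; omega)
    have h5 : d t = k * n + 2 * c₀ + a := by
      have h6 := hx t
      have h7 : k * e = k * (2 * i) - k * n := Nat.mul_sub k (2 * i) n
      have h8 : k * n ≤ k * (2 * i) := Nat.mul_le_mul_left _ hmid.le
      have h9 : k * (2 * i) = 2 * (k * i) := by ring
      omega
    refine ⟨c₀, h3, h2, h5, ?_⟩
    rintro γ hγ ⟨N, hN1, hN2, hN3⟩
    have h6 := hN2.trans (hbound t N hN1)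
    have h7 : B ^ d t * Real.exp (f (c N)) ≤ B' ^ d t * Real.exp (d t) := by
      have h8 : f (c N) ≤ d t := (hf.1 (hN3.trans hγ)).trans hft
      have h9 : B ^ d t ≤ B' ^ d t := by
        refine (le_abs_self _).trans ?_
        rw [abs_pow]
        exact pow_le_pow_left₀ (abs_nonneg _) (le_max_left _ _) _
      have h10 : 0 < B' ^ d t := by positivity
      exact mul_le_mul h9 (Real.exp_le_exp.2 h8) (Real.exp_pos _).le h10.le
    have hkd : k ≤ d t := by
      have h11 : k * 1 ≤ k * n := Nat.mul_le_mul_left _ h0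
      omega
    have h8 := not_bound hβ hβ1 hB1 hs1R hs hdt hkd h4 (y := d t) le_rfl
    have h9 : ENNReal.ofReal (B' ^ d t * Real.exp (d t)) <
        ENNReal.ofReal (β ^ k * (s : ℝ) ^ c₀) :=
      (ENNReal.ofReal_lt_ofReal_iff (by positivity)).2 h8
    exact absurd (h6.trans (ENNReal.ofReal_le_ofReal h7)) (not_le.2 h9)
  -- the object without the interval
  have hMF : ∀ {k c₀ : ℕ}, 0 < k → 0 < c₀ →
      L.Reach c (k * i + c₀) (k * n + 2 * c₀) (β ^ k * (s : ℝ) ^ c₀) (k * c M + c₀ * c F) := by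
    intro k c₀ hk hc₀
    have h1 := Reach.mul hc (pow_nonneg hβ.le k) (rM.pow hc hβ.le hk)
      (rF.pow hc (by positivity) hc₀)
    convert h1 using 1
    · ring
    · ring
  rcases hstep with ⟨E, hE, hE1⟩ | hdiv
  · have rE : L.Reach c 0 1 1 (c E) := ⟨E, hE, by rwa [ENNReal.ofReal_one], le_rfl⟩
    set C₀ : ℝ := |c M| + |c F| + |c E| + 1 with hC₀
    have hC₀0 : 0 < C₀ := by positivity
    obtain ⟨t, ht⟩ := (key C₀ hC₀0).exists
    have hxt := hx t
    set x := 2 * j t - d t with hxdef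
    obtain ⟨k, a, hk0, hka, ha⟩ : ∃ k a : ℕ, 0 < k ∧ k * e = x + a ∧ a < e := by
      have hx0 : 0 < x := by omega
      refine ⟨(x + e - 1) / e, (x + e - 1) / e * e - x, ?_, ?_, ?_⟩
      · exact Nat.div_pos (by omega) he0
      · have h1 := Nat.div_add_mod (x + e - 1) e
        have h2 := Nat.mod_lt (x + e - 1) he0
        have h3 : e * ((x + e - 1) / e) = (x + e - 1) / e * e := mul_comm _ _
        omega
      · have h1 := Nat.div_mul_le_self (x + e - 1) e
        omega
    obtain ⟨c₀, hc₀, hj, hdd, hno⟩ := ht k a hk0 hka ha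
    have hsum : k + c₀ + a ≤ d t := by
      have h11 : k * 1 ≤ k * n := Nat.mul_le_mul_left _ h0
      omega
    have hk1 : (k : ℝ) ≤ d t := by exact_mod_cast (by omega : k ≤ d t)
    have hc1 : (c₀ : ℝ) ≤ d t := by exact_mod_cast (by omega : c₀ ≤ d t)
    have ha1 : (a : ℝ) ≤ d t := by exact_mod_cast (by omega : a ≤ d t)
    have hdt0 : (0 : ℝ) ≤ d t := Nat.cast_nonneg _
    have hγ : k * c M + c₀ * c F + a * c E ≤ C₀ * d t := by
      have e1 : k * c M ≤ d t * |c M| :=
        (mul_le_mul_of_nonneg_left (le_abs_self _) (Nat.cast_nonneg k)).trans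
          (mul_le_mul_of_nonneg_right hk1 (abs_nonneg _))
      have e2 : c₀ * c F ≤ d t * |c F| :=
        (mul_le_mul_of_nonneg_left (le_abs_self _) (Nat.cast_nonneg c₀)).trans
          (mul_le_mul_of_nonneg_right hc1 (abs_nonneg _))
      have e3 : a * c E ≤ d t * |c E| :=
        (mul_le_mul_of_nonneg_left (le_abs_self _) (Nat.cast_nonneg a)).trans
          (mul_le_mul_of_nonneg_right ha1 (abs_nonneg _))
      rw [hC₀]
      linarith
    rcases Nat.eq_zero_or_pos a with h0a | h0a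
    · subst h0a
      have h1 := hMF hk0 hc₀
      rw [← hj, ← (by omega : d t = k * n + 2 * c₀)] at h1
      refine hno _ ?_ h1
      simpa using hγ
    · have h1 := Reach.mul hc (by positivity) (hMF hk0 hc₀) (rE.pow hc zero_le_one h0a)
      rw [mul_zero, add_zero, mul_one, one_pow, mul_one, ← hj, ← hdd] at h1
      exact hno _ hγ h1
  · set C₀ : ℝ := |c M| + |c F| + 1 with hC₀
    have hC₀0 : 0 < C₀ := by positivity
    obtain ⟨t, hdvd, ht⟩ := ((hdiv e he0).and_eventually (key C₀ hC₀0)).exists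
    have hxt := hx t
    set x := 2 * j t - d t with hxdef
    obtain ⟨k, hk⟩ := hdvd
    have hk0 : 0 < k := by
      rcases Nat.eq_zero_or_pos k with h1 | h1
      · rw [h1, mul_zero] at hk
        omega
      · exact h1
    obtain ⟨c₀, hc₀, hj, hdd, hno⟩ := ht k 0 hk0 (by rw [mul_comm, ← hk, add_zero]) he0
    have hsum : k + c₀ ≤ d t := by
      have h11 : k * 1 ≤ k * n := Nat.mul_le_mul_left _ h0
      omega
    have hk1 : (k : ℝ) ≤ d t := by exact_mod_cast (by omega : k ≤ d t)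
    have hc1 : (c₀ : ℝ) ≤ d t := by exact_mod_cast (by omega : c₀ ≤ d t)
    have hdt0 : (0 : ℝ) ≤ d t := Nat.cast_nonneg _
    have hγ : k * c M + c₀ * c F ≤ C₀ * d t := by
      have e1 : k * c M ≤ d t * |c M| :=
        (mul_le_mul_of_nonneg_left (le_abs_self _) (Nat.cast_nonneg k)).trans
          (mul_le_mul_of_nonneg_right hk1 (abs_nonneg _))
      have e2 : c₀ * c F ≤ d t * |c F| :=
        (mul_le_mul_of_nonneg_left (le_abs_self _) (Nat.cast_nonneg c₀)).trans
          (mul_le_mul_of_nonneg_right hc1 (abs_nonneg _))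
      rw [hC₀]
      linarith
    have h1 := hMF hk0 hc₀
    rw [← hj, ← (by omega : d t = k * n + 2 * c₀)] at h1
    exact hno _ hγ h1

end ProductClass

end Pool.Agent.X308.T
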