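import Mathlib.Analysis.SpecialFunctions.Pow.Real
import Mathlib.Topology.Algebra.Order.LiminfLimsup

/-!
# Numerical lemmas for powers
-/

set_option autoImplicit false

namespace Pool.Agent.X308.T

open Filter Topology

/-- A monotone function `f` with `f x / x → 0` for `x → ∞`. -/
def Sublinear (f : ℝ → ℝ) : Prop := Monotone f ∧ Tendsto (fun x => f x / x) atTop (𝓝 0)

/-- The exponents. -/
theorem exists_exponents {i n : ℕ} (he : n < 2 * i) {α : ℝ} (hα : α * n < i) {j d : ℕ → ℕ}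
    (hx : ∀ t, d t < 2 * j t)
    (hd : Tendsto d atTop atTop) (hlim : Tendsto (fun t => (j t : ℝ) / d t) atTop (𝓝 α)) :
    ∃ δ : ℝ, 0 < δ ∧ ∀ᶠ t in atTop, 0 < d t ∧ ∀ k : ℕ,
      k * (2 * i - n) < 2 * j t - d t + (2 * i - n) →
        ∃ c : ℕ, j t = k * i + c ∧ 0 < c ∧ δ * d t ≤ c := by
  have hi : 0 < i := by omega
  set e : ℕ := 2 * i - n with he'
  have he0 : 0 < e := by omega
  have heR : (0 : ℝ) < e := by exact_mod_cast he0
  have heq : (e : ℝ) = 2 * i - n := by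
    rw [he', Nat.cast_sub (by omega)]
    push_cast
    ring
  have hn0 : (0 : ℝ) ≤ n := Nat.cast_nonneg n
  set g : ℝ := i - α * n with hg
  have hg0 : 0 < g := by rw [hg]; linarith
  set η : ℝ := g / (4 * (n + 1)) with hη
  have hη0 : 0 < η := by positivity
  have hηn : η * n ≤ g / 4 := by
    rw [hη, div_mul_eq_mul_div, div_le_div_iff₀ (by positivity) (by positivity)]
    nlinarith
  refine ⟨g / (4 * e), by positivity, ?_⟩
  have h1 : ∀ᶠ t in atTop, (j t : ℝ) / d t < α + η :=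
    (tendsto_order.1 hlim).2 _ (by linarith)
  have hdR : Tendsto (fun t => (d t : ℝ)) atTop atTop := tendsto_natCast_atTop_atTop.comp hd
  have h2 : ∀ᶠ t in atTop, (4 * (i : ℝ) * e / g) + 1 ≤ (d t : ℝ) :=
    hdR.eventually_ge_atTop _
  filter_upwards [h1, h2] with t h1 h2
  have hfrac : (0 : ℝ) ≤ 4 * (i : ℝ) * e / g := by positivity
  have hdt : (0 : ℝ) < d t := by linarith
  refine ⟨by exact_mod_cast hdt, fun k hk => ?_⟩
  have h3 : (j t : ℝ) < (α + η) * d t := by rwa [div_lt_iff₀ hdt] at h1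
  have h4 : 4 * (i : ℝ) * e ≤ g * d t := by
    have : 4 * (i : ℝ) * e / g ≤ d t := by linarith
    rw [div_le_iff₀ hg0] at this
    linarith
  have h5 : (k : ℝ) * e ≤ 2 * j t - d t + e := by
    have h6 : ((k * e : ℕ) : ℝ) ≤ ((2 * j t - d t + e : ℕ) : ℝ) := by exact_mod_cast hk.le
    rw [Nat.cast_add, Nat.cast_sub (hx t).le] at h6
    push_cast at h6
    exact h6
  have hiR : (0 : ℝ) < i := by exact_mod_cast hi
  have h6 : g * d t / 2 ≤ e * ((j t : ℝ) - k * i) := by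
    have h7 : i * ((k : ℝ) * e) ≤ i * (2 * j t - d t + e) := mul_le_mul_of_nonneg_left h5 hiR.le
    have h8 : (n : ℝ) * j t ≤ n * ((α + η) * d t) := mul_le_mul_of_nonneg_left h3.le hn0
    have h9 : η * n * d t ≤ g / 4 * d t := mul_le_mul_of_nonneg_right hηn hdt.le
    have h10 : e * ((j t : ℝ) - k * i) = (2 * i - n) * j t - i * (k * e) := by
      rw [← heq]; ring
    have h11 : (i : ℝ) * d t - n * (α * d t) = g * d t := by rw [hg]; ring
    rw [h10]
    nlinarith
  have h7 : g / (4 * e) * d t ≤ (j t : ℝ) - k * i := by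
    rw [div_mul_eq_mul_div, div_le_iff₀ (by positivity)]
    nlinarith [mul_pos hg0 hdt]
  have h8 : (0 : ℝ) < (j t : ℝ) - k * i := lt_of_lt_of_le (by positivity) h7
  have h9 : k * i < j t := by
    have : ((k * i : ℕ) : ℝ) < j t := by push_cast; linarith
    exact_mod_cast this
  refine ⟨j t - k * i, by omega, by omega, ?_⟩
  rw [Nat.cast_sub h9.le]
  push_cast
  exact h7

/-- The comparison of exponential growth. -/
theorem not_bound {β : ℝ} (hβ : 0 < β) (hβ1 : β ≤ 1) {B δ : ℝ} (hB : 1 ≤ B) {s : ℝ}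
    (hs1 : 1 ≤ s) (hs : B * Real.exp 1 / β < s ^ δ) {d k c : ℕ} (hd : 0 < d) (hk : k ≤ d)
    (hc : δ * d ≤ c) {y : ℝ} (hy : y ≤ d) : B ^ d * Real.exp y < β ^ k * s ^ c := by
  have hs0 : 0 < s := lt_of_lt_of_le one_pos hs1
  have hB0 : 0 < B := lt_of_lt_of_le one_pos hB
  have h1 : β ^ d ≤ β ^ k := pow_le_pow_of_le_one hβ.le hβ1 hk
  have h2 : (s ^ δ) ^ d ≤ s ^ c := by
    rw [← Real.rpow_natCast (s ^ δ) d, ← Real.rpow_mul hs0.le, ← Real.rpow_natCast s c]
    exact Real.rpow_le_rpow_of_exponent_le hs1 hc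
  have h3 : Real.exp y ≤ Real.exp 1 ^ d := by
    rw [← Real.exp_nat_mul, mul_one]
    exact Real.exp_le_exp.2 hy
  calc B ^ d * Real.exp y ≤ B ^ d * Real.exp 1 ^ d := by gcongr
    _ = (B * Real.exp 1 / β) ^ d * β ^ d := by
        rw [← mul_pow, ← mul_pow, div_mul_cancel₀ _ hβ.ne']
    _ < (s ^ δ) ^ d * β ^ d := by
        refine mul_lt_mul_of_pos_right ?_ (pow_pos hβ _)
        exact pow_lt_pow_left₀ hs (by positivity) hd.ne'
    _ = β ^ d * (s ^ δ) ^ d := mul_comm _ _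
    _ ≤ β ^ k * s ^ c := by gcongr

/-- A sublinear function is eventually at most `x / C`. -/
theorem Sublinear.eventually_le {f : ℝ → ℝ} (hf : Sublinear f) {C : ℝ} (hC : 0 < C) {d : ℕ → ℕ}
    (hd : Tendsto d atTop atTop) : ∀ᶠ t in atTop, f (C * d t) ≤ d t := by
  have hdR : Tendsto (fun t => C * (d t : ℝ)) atTop atTop :=
    (tendsto_natCast_atTop_atTop.comp hd).const_mul_atTop hC
  have h1 := (hf.2.comp hdR)
  have h2 : ∀ᶠ t in atTop, f (C * d t) / (C * d t) < 1 / C :=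
    (tendsto_order.1 h1).2 _ (by positivity)
  have h3 : ∀ᶠ t in atTop, 0 < C * (d t : ℝ) := hdR.eventually_gt_atTop 0
  filter_upwards [h2, h3] with t h2 h3
  rw [div_lt_iff₀ h3] at h2
  have : 1 / C * (C * (d t : ℝ)) = d t := by field_simp
  linarith

end Pool.Agent.X308.T
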