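import Pool.Agent.X308.T.Num
import Mathlib.Analysis.SpecialFunctions.Pow.Asymptotics

/-!
# Euler characteristic and simplicial volume: bounds for products with surfaces
-/

set_option autoImplicit false

namespace Pool.Agent.X308.T

open Filter Topology

/-- The closed aspherical manifolds with their dimension, product, Euler characteristic and
simplicial volume. -/
structure VolumeClass (C : Type*) where
  /-- the dimension -/
  dim : C → ℕ
  /-- the product -/
  prod : C → C → C
  /-- the Euler characteristic -/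
  chi : C → ℝ
  /-- the simplicial volume -/
  vol : C → ℝ
  dim_prod : ∀ M N, dim (prod M N) = dim M + dim N
  chi_prod : ∀ M N, chi (prod M N) = chi M * chi N
  vol_prod : ∀ M N, vol M = 0 → vol (prod M N) = 0
  surfaces : ∀ s : ℕ, ∃ F, dim F = 2 ∧ (s : ℝ) ≤ |chi F|

namespace VolumeClass

variable {C : Type*} (L : VolumeClass C)

/-- The Euler characteristic vanishes if the simplicial volume does. -/
def Question : Prop := ∀ M, 0 < L.dim M → L.vol M = 0 → L.chi M = 0

/-- A bound for the Euler characteristic of the objects with simplicial volume zero, in a sequence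
of even dimensions. -/
def EulerBound : Prop :=
  ∃ c : C → ℝ, (∀ M N, c (L.prod M N) ≤ c M + c N) ∧ ∃ (B : ℝ) (f : ℝ → ℝ), Sublinear f ∧
    ∃ d : ℕ → ℕ, (∀ t, Even (d t)) ∧ Tendsto d atTop atTop ∧
      ∀ t N, L.dim N = d t → L.vol N = 0 → |L.chi N| ≤ B ^ d t * Real.exp (f (c N))

/-- There is an object of dimension `n` with volume zero if `z`, with Euler characteristic at
least `β` and complexity at most `γ`. -/
def Reach (z : Prop) (c : C → ℝ) (n : ℕ) (β γ : ℝ) : Prop :=
  ∃ M, L.dim M = n ∧ (z → L.vol M = 0) ∧ β ≤ |L.chi M| ∧ c M ≤ γ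

lemma Reach.mul {L : VolumeClass C} {z : Prop} {c : C → ℝ}
    (hc : ∀ M N, c (L.prod M N) ≤ c M + c N) {n n' : ℕ}
    {β γ β' γ' : ℝ} (hβ' : 0 ≤ β') (h : L.Reach z c n β γ) (h' : L.Reach False c n' β' γ') :
    L.Reach z c (n + n') (β * β') (γ + γ') := by
  obtain ⟨M, h1, h1', h2, h3⟩ := h
  obtain ⟨M', h4, -, h5, h6⟩ := h'
  refine ⟨L.prod M M', by rw [L.dim_prod, h1, h4], fun hz => L.vol_prod _ _ (h1' hz), ?_,
    (hc M M').trans (add_le_add h3 h6)⟩
  rw [L.chi_prod, abs_mul]
  exact mul_le_mul h2 h5 hβ' (abs_nonneg _)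

lemma Reach.pow {L : VolumeClass C} {c : C → ℝ} (hc : ∀ M N, c (L.prod M N) ≤ c M + c N) {n : ℕ}
    {β γ : ℝ} (hβ : 0 ≤ β) (h : L.Reach False c n β γ) {k : ℕ} (hk : 0 < k) :
    L.Reach False c (k * n) (β ^ k) (k * γ) := by
  induction k, hk using Nat.le_induction with
  | base => simpa using h
  | succ k hk ih =>
    have := Reach.mul hc hβ ih h
    rw [pow_succ]
    convert this using 1
    · ring
    · push_cast; ring

theorem question_iff : L.Question ↔ L.EulerBound := by
  constructor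
  · intro h
    refine ⟨fun _ => 0, fun _ _ => by simp, 1, fun _ => 0, ⟨monotone_const, by simp⟩,
      fun t => 2 * (t + 1), fun t => even_two_mul _, ?_, ?_⟩
    · exact tendsto_atTop_mono (fun t => by simp only [id]; omega) tendsto_id
    · intro t N hN hv
      rw [h N (by rw [hN]; positivity) hv]
      simp
  · rintro ⟨c, hc, B, f, hf, d, hev, hd, hb⟩ M h0 hv
    by_contra hne
    set n := L.dim M with hn
    obtain ⟨β, hβ, hβ1, hβM⟩ : ∃ β : ℝ, 0 < β ∧ β ≤ 1 ∧ β ≤ |L.chi M| * |L.chi M| :=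
      ⟨min 1 (|L.chi M| * |L.chi M|), lt_min one_pos (by positivity), min_le_left _ _,
        min_le_right _ _⟩
    set B' : ℝ := max |B| 1 with hB'
    have hB1 : 1 ≤ B' := le_max_right _ _
    obtain ⟨s, hs1, hs⟩ : ∃ s : ℕ, 1 ≤ s ∧ B' * Real.exp 1 / β < (s : ℝ) ^ (1 / 4 : ℝ) := by
      have h1 : Tendsto (fun s : ℕ => (s : ℝ) ^ (1 / 4 : ℝ)) atTop atTop :=
        (tendsto_rpow_atTop (by norm_num)).comp tendsto_natCast_atTop_atTop
      obtain ⟨s, h2, h3⟩ := ((h1.eventually_gt_atTop _).and (eventually_ge_atTop 1)).exists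
      exact ⟨s, h3, h2⟩
    have hs1R : (1 : ℝ) ≤ s := by exact_mod_cast hs1
    obtain ⟨F, hF, hFs⟩ := L.surfaces s
    have rF : L.Reach False c 2 s (c F) := ⟨F, hF, fun h => h.elim, hFs, le_rfl⟩
    have rM : L.Reach True c (n + n) β (c M + c M) := by
      refine ⟨L.prod M M, by rw [L.dim_prod], fun _ => L.vol_prod _ _ hv, ?_, hc _ _⟩
      rw [L.chi_prod, abs_mul]
      exact hβM
    set C₀ : ℝ := 2 * |c M| + |c F| + 1 with hC₀
    have hC₀0 : 0 < C₀ := by positivity
    obtain ⟨t, h1, h2⟩ := ((hf.eventually_le hC₀0 hd).and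
      (hd.eventually_ge_atTop (4 * n + 4))).exists
    obtain ⟨r, hr⟩ := hev t
    obtain ⟨c₀, hc₀⟩ : ∃ c₀, r = n + c₀ := ⟨r - n, by omega⟩
    have hc₀0 : 0 < c₀ := by omega
    have hdt : d t = n + n + c₀ * 2 := by omega
    obtain ⟨N, hN1, hN2, hN3, hN4⟩ := Reach.mul hc (by positivity) rM
      (rF.pow hc (by positivity) hc₀0)
    have h3 := hb t N (by rw [hN1, hdt]) (hN2 trivial)
    have hk1 : (1 : ℝ) ≤ d t := by exact_mod_cast (by omega : 1 ≤ d t)
    have hc1 : (c₀ : ℝ) ≤ d t := by exact_mod_cast (by omega : c₀ ≤ d t)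
    have hγ : c M + c M + c₀ * c F ≤ C₀ * d t := by
      have e1 : c M ≤ d t * |c M| := by
        have := mul_le_mul_of_nonneg_right hk1 (abs_nonneg (c M))
        linarith [le_abs_self (c M)]
      have e2 : c₀ * c F ≤ d t * |c F| :=
        (mul_le_mul_of_nonneg_left (le_abs_self _) (Nat.cast_nonneg c₀)).trans
          (mul_le_mul_of_nonneg_right hc1 (abs_nonneg _))
      rw [hC₀]
      linarith
    have h4 : B ^ d t * Real.exp (f (c N)) ≤ B' ^ d t * Real.exp (d t) := by
      have h8 : f (c N) ≤ d t := (hf.1 (hN4.trans hγ)).trans h1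
      have h9 : B ^ d t ≤ B' ^ d t := by
        refine (le_abs_self _).trans ?_
        rw [abs_pow]
        exact pow_le_pow_left₀ (abs_nonneg _) (le_max_left _ _) _
      have h10 : 0 < B' ^ d t := by positivity
      exact mul_le_mul h9 (Real.exp_le_exp.2 h8) (Real.exp_pos _).le h10.le
    have h5 : (1 / 4 : ℝ) * d t ≤ c₀ := by
      have h6 : (d t : ℝ) = 2 * n + 2 * c₀ := by
        rw [hdt]; push_cast; ring
      have h7 : ((4 * n + 4 : ℕ) : ℝ) ≤ d t := by exact_mod_cast h2
      push_cast at h7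
      linarith
    have h6 := not_bound hβ hβ1 hB1 hs1R hs (d := d t) (k := 1) (c := c₀) (by omega) (by omega) h5
      (y := d t) le_rfl
    rw [pow_one] at h6
    linarith

/-- In a sequence of even dimensions, the Euler characteristic is bounded on the objects with
simplicial volume zero. -/
def EulerBounded : Prop :=
  ∃ d : ℕ → ℕ, (∀ t, Even (d t)) ∧ Tendsto d atTop atTop ∧
    ∀ t, ∃ K : ℝ, ∀ N, L.dim N = d t → L.vol N = 0 → |L.chi N| ≤ K

theorem question_iff_bounded : L.Question ↔ L.EulerBounded := by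
  constructor
  · intro h
    refine ⟨fun t => 2 * (t + 1), fun t => even_two_mul _, ?_, ?_⟩
    · exact tendsto_atTop_mono (fun t => by simp only [id]; omega) tendsto_id
    · intro t
      refine ⟨0, fun N hN hv => ?_⟩
      rw [h N (by rw [hN]; positivity) hv]
      simp
  · rintro ⟨d, hev, hd, hb⟩ M h0 hv
    by_contra hne
    set n := L.dim M with hn
    have hβ : 0 < |L.chi M| * |L.chi M| := by positivity
    obtain ⟨t, h2⟩ := (hd.eventually_ge_atTop (4 * n + 4)).exists
    obtain ⟨r, hr⟩ := hev t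
    obtain ⟨c₀, hc₀⟩ : ∃ c₀, r = n + c₀ := ⟨r - n, by omega⟩
    have hc₀0 : 0 < c₀ := by omega
    have hdt : d t = n + n + c₀ * 2 := by omega
    obtain ⟨K, hK⟩ := hb t
    obtain ⟨s, hs⟩ := exists_nat_gt (max 1 (K / (|L.chi M| * |L.chi M|)))
    have hs1 : (1 : ℝ) < s := lt_of_le_of_lt (le_max_left _ _) hs
    have hs2 : K < |L.chi M| * |L.chi M| * s := by
      have := lt_of_le_of_lt (le_max_right _ _) hs
      rw [div_lt_iff₀ hβ] at this
      linarith
    obtain ⟨F, hF, hFs⟩ := L.surfaces s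
    have hc : ∀ M N, (fun _ => 0 : C → ℝ) (L.prod M N) ≤
        (fun _ => 0 : C → ℝ) M + (fun _ => 0 : C → ℝ) N := fun _ _ => by simp
    have rF : L.Reach False (fun _ => 0) 2 s 0 := ⟨F, hF, fun h => h.elim, hFs, le_rfl⟩
    have rM : L.Reach True (fun _ => 0) (n + n) (|L.chi M| * |L.chi M|) 0 := by
      refine ⟨L.prod M M, by rw [L.dim_prod], fun _ => L.vol_prod _ _ hv, ?_, le_rfl⟩
      rw [L.chi_prod, abs_mul]
    obtain ⟨N, hN1, hN2, hN3, -⟩ := Reach.mul hc (by positivity) rM
      (rF.pow hc (by positivity) hc₀0)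
    have h3 := hK N (by rw [hN1, hdt]) (hN2 trivial)
    have h4 : (s : ℝ) ≤ (s : ℝ) ^ c₀ := le_self_pow₀ hs1.le hc₀0.ne'
    have h5 : |L.chi M| * |L.chi M| * s ≤ |L.chi M| * |L.chi M| * (s : ℝ) ^ c₀ :=
      mul_le_mul_of_nonneg_left h4 hβ.le
    linarith

end VolumeClass

end Pool.Agent.X308.T
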